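import Mathlib

/-!
# A connected noninvolutory quandle with two good involutions

The quandle has 24 elements: it is the conjugacy class, in the Weyl group of type `D₄`, of the
signed permutations that are a negative two-cycle on two of the four coordinates, change the sign
of a third coordinate and fix the fourth one. This class generates the Weyl group, it is closed
under `x ↦ x⁻¹` and under `x ↦ -x`, and `x²` is not central. So `x ↦ x⁻¹` and `x ↦ -x⁻¹` are two
good involutions.
-/

namespace Pool.Agent.Results.MP_f5f603_al.TwoGoodInvolutions

/-- Quandle operations `op x y = x * y`. -/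
structure IsQuandle {R : Type} (op : R → R → R) : Prop where
  idem : ∀ x, op x x = x
  bij : ∀ y, Function.Bijective fun x => op x y
  distrib : ∀ x y z, op (op x y) z = op (op x z) (op y z)

/-- The group generated by the right translations `s_y : x ↦ x * y`. -/
def innerGroup {R : Type} (op : R → R → R) : Subgroup (Equiv.Perm R) :=
  Subgroup.closure {s | ∃ y, ∀ x, s x = op x y}

/-- `R` is connected: the group generated by the right translations acts transitively. -/
def IsConnected {R : Type} (op : R → R → R) : Prop :=
  ∀ x x' : R, ∃ g ∈ innerGroup op, g x = x'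

/-- `R` is involutory: `(x * y) * y = x` for all `x`, `y`. -/
def IsInvolutory {R : Type} (op : R → R → R) : Prop :=
  ∀ x y, op (op x y) y = x

/-- `ρ` is a good involution: `ρ ∘ ρ = id`, `ρ (x * y) = ρ x * y`, and `x * ρ y` is the element `w`
with `w * y = x`. -/
def IsGoodInvolution {R : Type} (op : R → R → R) (ρ : R → R) : Prop :=
  (∀ x, ρ (ρ x) = x) ∧ (∀ x y, ρ (op x y) = op (ρ x) y) ∧ ∀ x y, op (op x (ρ y)) y = x

/-! ### The quandle -/

/-- The table of the quandle, in base 32. -/
def tbl : ℕ := 686678594931287136602699105492450266099430858398857794391736165138977312486879083537195914476660610742102130251415869730061783335554151927741948755926894394364708149999437291847515021131404147579411049316506535188025784055338149312849754241158774127022741997322723486264567212969774230134223600541487777747051773847418406322188043364207974253573569333016884145235548024979847929967541412524763883130058514463515274591962123436133172425147989818045538106476258975971556430762917934167068634247433296158663570080538605035748301702961635508385082434718009800924379630053451308037837571578662483019521518531598138728988052011351999810027225287165061330956798578905045132081974710387227406472477370994207597418859322245916386610769527693005426318647165518831202480929795206892539776061832283669143135640525434169235304659072198605462228502939409206326007238646685184819200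

/-- The operation of the quandle. -/
def mul (x y : Fin 24) : Fin 24 :=
  Fin.ofNat 24 ((tbl >>> (5 * (24 * x.1 + y.1))) % 32)

/-- The map `x ↦ x⁻¹`. -/
def r₁ (x : Fin 24) : Fin 24 := Fin.ofNat 24 (x.1 ^^^ 1)

/-- The map `x ↦ -x⁻¹`. -/
def r₂ (x : Fin 24) : Fin 24 := Fin.ofNat 24 (x.1 ^^^ 2)

/-- Paths from `0`. -/
def path (x : Fin 24) : List (Fin 24) :=
  (([[], [4, 4], [4, 4, 20], [20], [13], [12], [12, 16], [13, 16], [12, 20], [12, 21], [17], [16],
    [4], [5], [5, 8], [4, 8], [4, 20], [4, 21], [8], [9], [4, 17], [4, 16], [8, 12],
    [8, 13]] : List (List (Fin 24)))[x.1]?).getD []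

theorem mul_idem : ∀ x, mul x x = x := by decide +kernel

theorem mul_inj : ∀ y x x', mul x y = mul x' y → x = x' := by decide +kernel

theorem mul_distrib : ∀ x y z, mul (mul x y) z = mul (mul x z) (mul y z) := by decide +kernel

theorem path_spec : ∀ x, (path x).foldl mul 0 = x := by decide +kernel

theorem mul_bij (y : Fin 24) : Function.Bijective fun x => mul x y :=
  Finite.injective_iff_bijective.1 fun x x' h => mul_inj y x x' h

/-- The right translation by `y`. -/
noncomputable def trans (y : Fin 24) : Equiv.Perm (Fin 24) :=
  Equiv.ofBijective _ (mul_bij y)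

theorem reach (l : List (Fin 24)) (x : Fin 24) :
    ∃ g ∈ innerGroup mul, g x = l.foldl mul x := by
  induction l generalizing x with
  | nil => exact ⟨1, Subgroup.one_mem _, rfl⟩
  | cons y l ih =>
    obtain ⟨g, hg, hgx⟩ := ih (mul x y)
    refine ⟨g * trans y, Subgroup.mul_mem _ hg (Subgroup.subset_closure ⟨y, fun _ => rfl⟩), ?_⟩
    rw [List.foldl_cons, ← hgx]
    rfl

theorem connected : IsConnected mul := by
  intro x x'
  obtain ⟨g, hg, hgx⟩ := reach (path x) 0
  obtain ⟨g', hg', hgx'⟩ := reach (path x') 0
  rw [path_spec] at hgx hgx'
  refine ⟨g' * g⁻¹, Subgroup.mul_mem _ hg' (Subgroup.inv_mem _ hg), ?_⟩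
  rw [← hgx', ← hgx]
  simp

/-- There are a connected noninvolutory quandle and two different good involutions of it. -/
theorem result : ∃ (R : Type) (op : R → R → R), IsQuandle op ∧ IsConnected op ∧
    ¬ IsInvolutory op ∧ ∃ ρ₁ ρ₂ : R → R, ρ₁ ≠ ρ₂ ∧ IsGoodInvolution op ρ₁ ∧
      IsGoodInvolution op ρ₂ := by
  refine ⟨Fin 24, mul, ⟨mul_idem, mul_bij, mul_distrib⟩, connected, ?_, r₁, r₂, ?_, ?_, ?_⟩
  · intro h
    exact absurd (h 0 4) (by decide +kernel)
  · intro h
    exact absurd (congrFun h 0) (by decide +kernel)
  · exact ⟨by decide +kernel, by decide +kernel, by decide +kernel⟩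
  · exact ⟨by decide +kernel, by decide +kernel, by decide +kernel⟩

end Pool.Agent.Results.MP_f5f603_al.TwoGoodInvolutions
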